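import Pool.Agent.Y767.HC.Stm
import Pool.Agent.Y772.SK.Ord
import Pool.Agent.Y772.DK.Main
import Pool.Agent.W688.TW.Kara

/-!
# Mertens' theorem for the prime ideals of a number field
-/

set_option autoImplicit false

open NumberField Complex Filter Topology Ideal

namespace Pool.Agent.Y895.HC

open Pool.Agent.Y773 Pool.Agent.Y772 Pool.Agent.Y772.NZ Pool.Agent.Y767

open scoped ArithmeticFunction.vonMangoldt

variable (K : Type) [Field K] [NumberField K]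

lemma finite_norm (n : ℕ) : {𝔞 : Ideal (𝓞 K) | absNorm 𝔞 = n}.Finite :=
  Ideal.finite_setOfPred_absNorm_eq n

lemma VM_nn (𝔞 : Ideal (𝓞 K)) : 0 ≤ VM 𝔞 := by
  unfold VM
  split_ifs
  · exact Real.log_natCast_nonneg _
  · exact le_rfl

/-- the sum defining `cc 1` -/
lemma cc_one_eq {n : ℕ} (hn : n ≠ 0) (hΛ : Λ n ≠ 0) :
    ∑ᶠ 𝔞 ∈ {𝔞 : Ideal (𝓞 K) | absNorm 𝔞 = n}, VM 𝔞 = (cc (one K) n).re * Λ n := by
  have hf := finite_norm K n
  have h1 : (∑ᶠ 𝔞 ∈ {𝔞 : Ideal (𝓞 K) | absNorm 𝔞 = n}, (VM 𝔞 : ℂ) * one K 𝔞) =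
      ((∑ᶠ 𝔞 ∈ {𝔞 : Ideal (𝓞 K) | absNorm 𝔞 = n}, VM 𝔞 : ℝ) : ℂ) := by
    rw [finsum_mem_eq_finite_toFinset_sum _ hf, finsum_mem_eq_finite_toFinset_sum _ hf,
      Complex.ofReal_sum]
    refine Finset.sum_congr rfl fun 𝔞 h𝔞 => ?_
    have h2 : absNorm 𝔞 = n := by simpa using h𝔞
    have h3 : 𝔞 ≠ 0 := by
      rintro rfl
      rw [Ideal.zero_eq_bot, absNorm_bot] at h2
      exact hn h2.symm
    rw [one_ne K h3, mul_one]
  unfold cc
  rw [h1, ← Complex.ofReal_div, Complex.ofReal_re, div_mul_cancel₀ _ hΛ]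

lemma sq_cK (n : ℕ) : ‖cK K n‖ ^ 2 =
    (∑ᶠ 𝔞 ∈ {𝔞 : Ideal (𝓞 K) | absNorm 𝔞 = n}, VM 𝔞 ^ 2) / Λ n ^ 2 := by
  unfold cK
  rw [Complex.norm_real, Real.norm_eq_abs, sq_abs, div_pow, Real.sq_sqrt]
  exact finsum_mem_induction (fun z : ℝ => 0 ≤ z) le_rfl (fun _ _ h1 h2 => add_nonneg h1 h2)
    fun 𝔞 _ => sq_nonneg _

lemma cK_le {n : ℕ} (h : ‖cc (one K) n‖ ≤ Module.finrank ℚ K) :
    ‖cK K n‖ ^ 2 ≤ (Module.finrank ℚ K : ℝ) ^ 2 := by
  rw [sq_cK]
  by_cases hΛ : Λ n = 0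
  · rw [hΛ, zero_pow two_ne_zero, div_zero]
    positivity
  have hn : n ≠ 0 := by
    rintro rfl
    exact hΛ (ArithmeticFunction.map_zero)
  have hf := finite_norm K n
  have hpos : 0 < Λ n := lt_of_le_of_ne ArithmeticFunction.vonMangoldt_nonneg (Ne.symm hΛ)
  have h1 := cc_one_eq K hn hΛ
  rw [finsum_mem_eq_finite_toFinset_sum _ hf] at h1
  have h2 : (cc (one K) n).re ≤ Module.finrank ℚ K :=
    (le_trans (le_abs_self _) (abs_re_le_norm _)).trans h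
  have h4 := (cc_one_nonneg K n).1
  rw [div_le_iff₀ (by positivity), finsum_mem_eq_finite_toFinset_sum _ hf]
  have h3 : ∑ 𝔞 ∈ hf.toFinset, VM 𝔞 ^ 2 ≤ (∑ 𝔞 ∈ hf.toFinset, VM 𝔞) ^ 2 :=
    Finset.sum_sq_le_sq_sum_of_nonneg fun 𝔞 _ => VM_nn K 𝔞
  refine h3.trans ?_
  rw [h1, mul_pow]
  exact mul_le_mul_of_nonneg_right (pow_le_pow_left₀ h4 h2 2) (sq_nonneg _)

/-- at a prime `p`, both are the number of prime ideals of norm `p` -/
lemma cK_prime {p : ℕ} (hp : p.Prime)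
    (hcc : cc (one K) p = ∑ᶠ 𝔭 ∈ {𝔭 : Ideal (𝓞 K) | absNorm 𝔭 = p}, one K 𝔭) :
    ‖cK K p‖ ^ 2 = (cc (one K) p).re := by
  have hf := finite_norm K p
  have hlog : Λ p = Real.log p := ArithmeticFunction.vonMangoldt_apply_prime hp
  have hl0 : Real.log p ≠ 0 := (Real.log_pos (by exact_mod_cast hp.one_lt)).ne'
  rw [sq_cK, hcc, hlog, finsum_mem_eq_finite_toFinset_sum _ hf,
    finsum_mem_eq_finite_toFinset_sum _ hf]
  have h1 : ∀ 𝔞 ∈ hf.toFinset, VM 𝔞 ^ 2 = Real.log p ^ 2 := by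
    intro 𝔞 h𝔞
    have h2 : absNorm 𝔞 = p := by simpa using h𝔞
    have hP := prime_of_norm hp h2
    have h3 : 𝔞 ≠ 0 := by
      rintro rfl
      rw [Ideal.zero_eq_bot, absNorm_bot] at h2
      exact hp.ne_zero h2.symm
    have hpr : Prime 𝔞 := Ideal.prime_of_isPrime h3 hP
    unfold VM
    rw [if_pos hpr.isPrimePow, hP.radical, h2]
  have h4 : ∀ 𝔞 ∈ hf.toFinset, one K 𝔞 = 1 := by
    intro 𝔞 h𝔞
    have h2 : absNorm 𝔞 = p := by simpa using h𝔞
    refine one_ne K ?_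
    rintro rfl
    rw [Ideal.zero_eq_bot, absNorm_bot] at h2
    exact hp.ne_zero h2.symm
  rw [Finset.sum_congr rfl h1, Finset.sum_congr rfl h4, Finset.sum_const, Finset.sum_const,
    nsmul_eq_mul, nsmul_eq_mul, mul_div_assoc, div_self (pow_ne_zero 2 hl0), mul_one, mul_one,
    natCast_re]

theorem t_mer : StMer := by
  intro K _ _
  classical
  have hD := DK.t_dirK
  obtain ⟨A, hA, hDK⟩ := hD K
  obtain ⟨g, hg, hg1, hgz⟩ := near_one K
  obtain ⟨m1, hm1', hlim1⟩ := SK.lim_order hD (one K) (one_norm K) g hg 1 (by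
    filter_upwards [hgz] with z hz h1
    have hz1 : z - 1 ≠ 0 := by
      intro h0
      have : z = 1 := by linear_combination h0
      rw [this] at h1
      simp at h1
    rw [pow_one, hz h1, div_mul_cancel₀ _ hz1])
  have hm10 : m1 = 0 := hm1' hg1
  subst hm10
  obtain ⟨-, -, -, -, -, -, hccb1, hccp1, -, -, -⟩ := hDK (one K) (one_norm K)
  set N0 : ℝ := (Module.finrank ℚ K : ℝ) with hN0
  have hN0' : 0 ≤ N0 := Nat.cast_nonneg _
  -- the error
  set w : ℕ → ℝ := fun n => ‖cK K n‖ ^ 2 - (cc (one K) n).re with hw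
  set B : ℝ := N0 ^ 2 + N0 with hB
  have hB0 : 0 ≤ B := by positivity
  have hwb : ∀ n, |w n| ≤ B := by
    intro n
    have h1 := cK_le K (hccb1 n)
    have h2 := (abs_re_le_norm (cc (one K) n)).trans (hccb1 n)
    have h6 : 0 ≤ ‖cK K n‖ ^ 2 := sq_nonneg _
    have h7 := (cc_one_nonneg K n).1
    rw [abs_le] at h2 ⊢
    simp only [hw]
    constructor <;> nlinarith
  have hw0 : ∀ n : ℕ, n.Prime → w n = 0 := by
    intro p hp
    simp only [hw]
    rw [cK_prime K hp (hccp1 p hp), sub_self]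
  -- constants
  have hnp : Summable (fun n : ℕ => (if n.Prime then 0 else Λ n) / (n : ℝ)) := by
    have h := ArithmeticFunction.vonMangoldt.summable_residueClass_non_primes_div (q := 1) (a := 0)
    refine h.congr fun n => ?_
    congr 1
    split_ifs with hn
    · rfl
    · unfold ArithmeticFunction.vonMangoldt.residueClass
      rw [Set.indicator_of_mem]
      exact Subsingleton.elim _ _
  set W : ℝ := ∑' n : ℕ, B * ((if n.Prime then 0 else Λ n) / (n : ℝ)) with hW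
  have hWs : Summable (fun n : ℕ => B * ((if n.Prime then 0 else Λ n) / (n : ℝ))) :=
    hnp.mul_left _
  have hΛ : ∀ n : ℕ, 0 ≤ Λ n := fun n => ArithmeticFunction.vonMangoldt_nonneg
  -- summability
  have hkey : ∀ σ : ℝ, 0 < σ →
      Summable (fun n : ℕ => Λ n * ‖cK K n‖ ^ 2 * (n : ℝ) ^ (-(1 + σ))) ∧
      |∑' n : ℕ, w n * Λ n * (n : ℝ) ^ (-(1 + σ))| ≤ W ∧
      ∑' n : ℕ, Λ n * ‖cK K n‖ ^ 2 * (n : ℝ) ^ (-(1 + σ)) =
        ∑' n : ℕ, (cc (one K) n).re * Λ n * (n : ℝ) ^ (-(1 + σ)) +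
        ∑' n : ℕ, w n * Λ n * (n : ℝ) ^ (-(1 + σ)) := by
    intro σ hσ
    have hr : ∀ n : ℕ, 0 ≤ (n : ℝ) ^ (-(1 + σ)) := fun n => Real.rpow_nonneg (Nat.cast_nonneg n) _
    have hr1 : ∀ n : ℕ, (n : ℝ) ^ (-(1 + σ)) ≤ 1 / (n : ℝ) := by
      intro n
      rcases Nat.eq_zero_or_pos n with rfl | hn
      · rw [Nat.cast_zero, Real.zero_rpow (by linarith)]; simp
      · rw [one_div, ← Real.rpow_neg_one]
        exact Real.rpow_le_rpow_of_exponent_le (by exact_mod_cast hn) (by linarith)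
    have hΛs : Summable (fun n : ℕ => Λ n * (n : ℝ) ^ (-(1 + σ))) := by
      have h1 := (ArithmeticFunction.LSeriesSummable_vonMangoldt
        (s := ((1 + σ : ℝ) : ℂ)) (by simpa using hσ)).norm
      refine h1.congr fun n => ?_
      rw [LSeries.norm_term_eq]
      rcases eq_or_ne n 0 with rfl | hn
      · simp
      · rw [if_neg hn, Complex.norm_real, Real.norm_of_nonneg (hΛ n),
          Complex.ofReal_re, Real.rpow_neg (Nat.cast_nonneg n), div_eq_mul_inv]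
    have hsr : ∀ (v : ℕ → ℝ) (B : ℝ), (∀ n, |v n| ≤ B) →
        Summable (fun n : ℕ => v n * Λ n * (n : ℝ) ^ (-(1 + σ))) := by
      intro v B hv
      refine Summable.of_norm_bounded (hΛs.mul_left B) fun n => ?_
      have hnn : 0 ≤ Λ n * (n : ℝ) ^ (-(1 + σ)) := mul_nonneg (hΛ n) (hr n)
      rw [mul_assoc, norm_mul, Real.norm_of_nonneg hnn]
      exact mul_le_mul_of_nonneg_right (hv n) hnn
    have hws := hsr w B hwb
    have h1s := hsr (fun n => (cc (one K) n).re) N0 fun n =>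
      (abs_re_le_norm (cc (one K) n)).trans (hccb1 n)
    have h0s := hsr (fun n => ‖cK K n‖ ^ 2) (N0 ^ 2) fun n => by
      rw [abs_of_nonneg (sq_nonneg _)]
      exact cK_le K (hccb1 n)
    refine ⟨h0s.congr fun n => by ring, ?_, ?_⟩
    · have hterm : ∀ n : ℕ, ‖w n * Λ n * (n : ℝ) ^ (-(1 + σ))‖ ≤
          B * ((if n.Prime then 0 else Λ n) / (n : ℝ)) := by
        intro n
        have hN := hΛ n
        have hR := hr n
        rw [mul_assoc, norm_mul, Real.norm_of_nonneg (mul_nonneg hN hR), Real.norm_eq_abs]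
        by_cases hp : n.Prime
        · rw [hw0 n hp, abs_zero, zero_mul, if_pos hp, zero_div, mul_zero]
        · rw [if_neg hp]
          have hb1 : |w n| * (Λ n * (n : ℝ) ^ (-(1 + σ))) ≤ B * (Λ n * (n : ℝ) ^ (-(1 + σ))) :=
            mul_le_mul_of_nonneg_right (hwb n) (mul_nonneg hN hR)
          have h11 : Λ n * (n : ℝ) ^ (-(1 + σ)) ≤ Λ n * (1 / (n : ℝ)) :=
            mul_le_mul_of_nonneg_left (hr1 n) hN
          have h12 : Λ n * (1 / (n : ℝ)) = Λ n / (n : ℝ) := by ring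
          rw [h12] at h11
          exact hb1.trans (mul_le_mul_of_nonneg_left h11 hB0)
      rw [← Real.norm_eq_abs]
      exact (norm_tsum_le_tsum_norm hws.norm).trans (hws.norm.tsum_le_tsum hterm hWs)
    · rw [← h1s.tsum_add hws]
      refine tsum_congr fun n => ?_
      simp only [hw]
      ring
  -- the limit
  have hW0 : Tendsto (fun σ : ℝ => σ * ∑' n : ℕ, w n * Λ n * (n : ℝ) ^ (-(1 + σ))) (𝓝[>] 0)
      (𝓝 0) := by
    have h0 : Tendsto (fun σ : ℝ => σ * W) (𝓝[>] 0) (𝓝 0) := by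
      have : Continuous fun σ : ℝ => σ * W := by fun_prop
      have h1 := this.tendsto 0
      rw [zero_mul] at h1
      exact h1.mono_left nhdsWithin_le_nhds
    refine squeeze_zero_norm' ?_ h0
    filter_upwards [self_mem_nhdsWithin] with σ hσ
    have hσ' : (0 : ℝ) < σ := hσ
    rw [norm_mul, Real.norm_of_nonneg hσ'.le, Real.norm_eq_abs]
    exact mul_le_mul_of_nonneg_left (hkey σ hσ').2.1 hσ'.le
  have hlim : Tendsto (fun σ : ℝ => σ * ∑' n : ℕ, Λ n * ‖cK K n‖ ^ 2 * (n : ℝ) ^ (-(1 + σ)))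
      (𝓝[>] 0) (𝓝 (((1 : ℕ) : ℝ) - ((0 : ℕ) : ℝ) + 0)) := by
    refine (hlim1.add hW0).congr' ?_
    filter_upwards [self_mem_nhdsWithin] with σ hσ
    rw [(hkey σ hσ).2.2]
    ring
  have hlim' : Tendsto (fun σ : ℝ => σ * ∑' n : ℕ, Λ n * ‖cK K n‖ ^ 2 * (n : ℝ) ^ (-(1 + σ)))
      (𝓝[>] 0) (𝓝 1) := by
    convert hlim using 2
    norm_num
  have hconv : ∀ (σ : ℝ), 0 < σ → ∀ n : ℕ, Λ n * ‖cK K n‖ ^ 2 / n * (n : ℝ) ^ (-σ) =
      Λ n * ‖cK K n‖ ^ 2 * (n : ℝ) ^ (-(1 + σ)) := by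
    intro σ hσ n
    rcases Nat.eq_zero_or_pos n with rfl | hn
    · simp
    · have hn0 : (0 : ℝ) < n := by exact_mod_cast hn
      rw [neg_add, Real.rpow_add hn0, Real.rpow_neg_one]
      ring
  unfold W388.SelE
  refine W688.TW.t_kara (fun n => Λ n * ‖cK K n‖ ^ 2 / n) (fun n => ?_) (by simp)
    (fun σ hσ => ?_) ?_
  · exact div_nonneg (mul_nonneg (hΛ n) (sq_nonneg _)) (Nat.cast_nonneg n)
  · exact (hkey σ hσ).1.congr fun n => (hconv σ hσ n).symm
  · refine hlim'.congr' ?_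
    filter_upwards [self_mem_nhdsWithin] with σ hσ
    rw [tsum_congr (hconv σ hσ)]

end Pool.Agent.Y895.HC
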